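import Pool.Agent.helper45.FG.SpecZ

/-!
# Project fg: (MP_70a088_an), row ARE of part Z: area of a set which is disjoint from its translates (helper83)
-/

set_option autoImplicit false

open Complex Metric Set Filter Topology MeasureTheory
open EGH (Al Rh)
open FG FGE

noncomputable section

namespace FGZ

theorem ARE_60 {T : ℂ → ℂ} {N : ℕ} {kap A : ℝ} {D : ℕ → Set ℂ} (hP : PD T N kap A D) : D 6 ⊆ D 0 :=
  ((((((hP.mo 5 (by norm_num)).trans (hP.mo 4 (by norm_num))).trans (hP.mo 3 (by norm_num))).trans (hP.mo 2 (by norm_num))).trans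
    (hP.mo 1 (by norm_num))).trans (hP.mo 0 (by norm_num)))

/-- straight motion of a neighbourhood. -/
theorem ARE_near (hSTR : STR_stmt) {T : ℂ → ℂ} {N : ℕ} {kap A : ℝ} {D : ℕ → Set ℂ} {y a : ℂ} {h e : ℝ}
    (hP : PD T N kap A D) (hL : Plc T N D y a h e) (he : 0 ≤ e) (hhe : h * e ≤ 1 / 1000) (k : ℕ) (hk : (k : ℝ) ≤ h / 8)
    (z : ℂ) (hz : z ∈ ball y ((3 / 2 * h + 1) * ‖a‖)) :
    ‖T^[k * N] z - z - k * a‖ ≤ ‖a‖ / 8000 ∧ ∀ i ≤ k * N, T^[i] z ∈ D 6 := by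
  have ha : 0 < ‖a‖ := norm_pos_iff.2 hL.a0
  have hh := hL.h1
  have hz' : ‖z - y‖ < (3 / 2 * h + 1) * ‖a‖ := by
    have := mem_ball.1 hz
    rwa [dist_eq_norm] at this
  have h1 : z ∈ ball y ((2 * h - 1) * ‖a‖) := by
    rw [mem_ball, dist_eq_norm]
    nlinarith [hz', ha, hh]
  have h2 : z + k * a ∈ ball y ((2 * h - 1) * ‖a‖) := by
    rw [mem_ball, dist_eq_norm]
    have h3 : ‖z + k * a - y‖ ≤ ‖z - y‖ + k * ‖a‖ := by
      have h4 : z + k * a - y = (z - y) + k * a := by ring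
      rw [h4]
      refine (norm_add_le _ _).trans ?_
      rw [norm_mul, Complex.norm_natCast]
    have h5 : (k : ℝ) * ‖a‖ ≤ h / 8 * ‖a‖ := mul_le_mul_of_nonneg_right hk ha.le
    nlinarith [hz', ha, hh, h3, h5]
  obtain ⟨hA, hB, -⟩ := hSTR T N kap A D y a h e hP hL he hhe k z h1 h2
  refine ⟨?_, hB⟩
  have h6 := (hA k le_rfl).2
  refine h6.trans ?_
  have h7 : (k : ℝ) * e ≤ 1 / 8000 := by
    calc (k : ℝ) * e ≤ h / 8 * e := mul_le_mul_of_nonneg_right hk he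
      _ ≤ 1 / 8000 := by linarith
  calc (k : ℝ) * e * ‖a‖ ≤ 1 / 8000 * ‖a‖ := mul_le_mul_of_nonneg_right h7 ha.le
    _ = ‖a‖ / 8000 := by ring

/-- the derivative of `F^k` is near `1`. -/
theorem ARE_der (hSTR : STR_stmt) (hCAN : CAN_stmt) {T : ℂ → ℂ} {N : ℕ} {kap A : ℝ} {D : ℕ → Set ℂ} {y a : ℂ} {h e : ℝ}
    (hP : PD T N kap A D) (hL : Plc T N D y a h e) (he : 0 ≤ e) (hhe : h * e ≤ 1 / 1000) (k : ℕ) (hk : (k : ℝ) ≤ h / 8)
    (z : ℂ) (hz : z ∈ ball y (3 / 2 * h * ‖a‖)) :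
    HasDerivAt (T^[k * N]) (deriv (T^[k * N]) z) z ∧ ‖deriv (T^[k * N]) z - 1‖ ≤ 1 / 1000 := by
  have ha : 0 < ‖a‖ := norm_pos_iff.2 hL.a0
  have hz' : ‖z - y‖ < 3 / 2 * h * ‖a‖ := by
    have := mem_ball.1 hz
    rwa [dist_eq_norm] at this
  obtain ⟨-, hUo, hUd⟩ := hCAN T N kap A D hP (k * N)
  set U : Set ℂ := {w : ℂ | ∀ j < k * N, T^[j] w ∈ D 0} with hU
  have hsub : ∀ w ∈ closedBall z (‖a‖ / 2), w ∈ ball y ((3 / 2 * h + 1) * ‖a‖) := by
    intro w hw
    have hw' : ‖w - z‖ ≤ ‖a‖ / 2 := by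
      have := mem_closedBall.1 hw
      rwa [dist_eq_norm] at this
    rw [mem_ball, dist_eq_norm]
    have h3 : ‖w - y‖ ≤ ‖w - z‖ + ‖z - y‖ := by
      have : w - y = (w - z) + (z - y) := by ring
      rw [this]
      exact norm_add_le _ _
    nlinarith
  have hcU : closedBall z (‖a‖ / 2) ⊆ U := by
    intro w hw j hj
    exact ARE_60 hP ((ARE_near hSTR hP hL he hhe k hk w (hsub w hw)).2 j hj.le)
  have hzU : z ∈ U := hcU (mem_closedBall_self (by positivity))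
  have hd : DifferentiableAt ℂ (T^[k * N]) z := hUd.differentiableAt (hUo.mem_nhds hzU)
  refine ⟨hd.hasDerivAt, ?_⟩
  set G : ℂ → ℂ := fun w => T^[k * N] w - w - k * a with hG
  have hGd : DifferentiableOn ℂ G U := (hUd.sub differentiableOn_id).sub_const _
  have hdc : DiffContOnCl ℂ G (ball z (‖a‖ / 2)) := by
    refine ⟨hGd.mono (ball_subset_closedBall.trans hcU), ?_⟩
    refine hGd.continuousOn.mono ?_
    exact closure_ball_subset_closedBall.trans hcU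
  have hC : ∀ w ∈ sphere z (‖a‖ / 2), ‖G w‖ ≤ ‖a‖ / 8000 := by
    intro w hw
    exact (ARE_near hSTR hP hL he hhe k hk w (hsub w (sphere_subset_closedBall hw))).1
  have hc := Complex.norm_deriv_le_of_forall_mem_sphere_norm_le (by positivity) hdc hC
  have h1 : deriv G z = deriv (T^[k * N]) z - 1 := by
    have h2 : HasDerivAt G (deriv (T^[k * N]) z - 1) z := (hd.hasDerivAt.sub (hasDerivAt_id z)).sub_const _
    exact h2.deriv
  rw [h1] at hc
  refine hc.trans ?_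
  rw [div_le_iff₀ (by positivity)]
  nlinarith

theorem ARE_vol (hSTR : STR_stmt) (hCAN : CAN_stmt) {T : ℂ → ℂ} {N : ℕ} {kap A : ℝ} {D : ℕ → Set ℂ} {y a : ℂ} {h e : ℝ}
    (hP : PD T N kap A D) (hL : Plc T N D y a h e) (he : 0 ≤ e) (hhe : h * e ≤ 1 / 1000) (Y : Set ℂ) (hY : IsOpen Y)
    (hYs : Y ⊆ ball y (3 / 2 * h * ‖a‖)) (k : ℕ) (hk : (k : ℝ) ≤ h / 8) :
    MeasurableSet (T^[k * N] '' Y) ∧ ENNReal.ofReal (98 / 100) * volume Y ≤ volume (T^[k * N] '' Y) := by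
  have hh := hL.h1
  have ha : 0 < ‖a‖ := norm_pos_iff.2 hL.a0
  have hf : ∀ z ∈ Y, HasFDerivWithinAt (T^[k * N]) (deriv (T^[k * N]) z • (1 : ℂ →L[ℝ] ℂ)) Y z := by
    intro z hz
    exact (ARE_der hSTR hCAN hP hL he hhe k hk z (hYs hz)).1.complexToReal_fderiv.hasFDerivWithinAt
  have hbig : ∀ z ∈ Y, z ∈ ball y ((3 / 2 * h + 1) * ‖a‖) := by
    intro z hz
    refine ball_subset_ball ?_ (hYs hz)
    nlinarith
  have hi : InjOn (T^[k * N]) Y := by
    intro z hz w hw hzw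
    obtain ⟨h1, -, -⟩ := hCAN T N kap A D hP (k * N)
    refine h1 z w ?_ ?_ hzw
    · intro j hj
      exact ARE_60 hP ((ARE_near hSTR hP hL he hhe k hk z (hbig z hz)).2 j hj.le)
    · intro j hj
      exact ARE_60 hP ((ARE_near hSTR hP hL he hhe k hk w (hbig w hw)).2 j hj.le)
  refine ⟨measurable_image_of_fderivWithin hY.measurableSet hf hi, ?_⟩
  rw [← lintegral_abs_det_fderiv_eq_addHaar_image volume hY.measurableSet hf hi]
  rw [← setLIntegral_const]
  refine setLIntegral_mono_ae' hY.measurableSet (Filter.Eventually.of_forall fun z hz => ?_)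
  refine ENNReal.ofReal_le_ofReal ?_
  rw [VLA_det]
  have h1 : ((1 : ℂ →L[ℝ] ℂ)).det = 1 := by
    rw [ContinuousLinearMap.det]
    exact LinearMap.det_id
  rw [h1, mul_one, abs_of_nonneg (by positivity)]
  have h2 := (ARE_der hSTR hCAN hP hL he hhe k hk z (hYs hz)).2
  set c := deriv (T^[k * N]) z with hc
  have h3 : 1 - ‖c‖ ≤ 1 / 1000 := by
    have h4 : ‖(1 : ℂ)‖ ≤ ‖c‖ + ‖c - 1‖ := by
      have h5 : (1 : ℂ) = c - (c - 1) := by ring
      calc ‖(1 : ℂ)‖ = ‖c - (c - 1)‖ := by rw [← h5]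
        _ ≤ ‖c‖ + ‖c - 1‖ := norm_sub_le _ _
    rw [norm_one] at h4
    linarith
  nlinarith [norm_nonneg c]

/-- ARE. -/
theorem ARE (hSTR : STR_stmt) (hCAN : CAN_stmt) : ARE_stmt := by
  intro T N kap A D y a h e hP hL he hhe Y hY hYs hno
  have hh := hL.h1
  have ha : 0 < ‖a‖ := norm_pos_iff.2 hL.a0
  set K : ℕ := ⌊h / 8⌋₊ with hK
  have hK1 : (K : ℝ) ≤ h / 8 := Nat.floor_le (by linarith)
  have hK2 : h / 8 < K + 1 := Nat.lt_floor_add_one _
  have hbig : ∀ z ∈ Y, z ∈ ball y ((3 / 2 * h + 1) * ‖a‖) := by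
    intro z hz
    refine ball_subset_ball ?_ (hYs hz)
    nlinarith
  have hkle : ∀ k ∈ Finset.range (K + 1), (k : ℝ) ≤ h / 8 := by
    intro k hk
    have h1 : k ≤ K := Nat.lt_succ_iff.1 (Finset.mem_range.1 hk)
    have h2 : (k : ℝ) ≤ K := by exact_mod_cast h1
    linarith
  have hdisj : ∀ k k' : ℕ, k' < k → (k : ℝ) ≤ h / 8 → Disjoint (T^[k * N] '' Y) (T^[k' * N] '' Y) := by
    intro k k' hkk hk
    refine Set.disjoint_left.2 ?_
    rintro _ ⟨u, hu, rfl⟩ ⟨u', hu', huu⟩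
    obtain ⟨h1, -, -⟩ := hCAN T N kap A D hP (k' * N)
    have hsplit : k * N = k' * N + (k - k') * N := by
      rw [← Nat.add_mul]
      congr 1
      omega
    have h2 : T^[k' * N] u' = T^[k' * N] (T^[(k - k') * N] u) := by
      rw [huu, hsplit, Function.iterate_add_apply]
    have hk' : (k' : ℝ) ≤ h / 8 := by
      have : (k' : ℝ) ≤ k := by exact_mod_cast hkk.le
      linarith
    have h3 : u' = T^[(k - k') * N] u := by
      refine h1 u' _ ?_ ?_ h2
      · intro j hj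
        exact ARE_60 hP ((ARE_near hSTR hP hL he hhe k' hk' u' (hbig u' hu')).2 j hj.le)
      · intro j hj
        rw [← Function.iterate_add_apply]
        refine ARE_60 hP ((ARE_near hSTR hP hL he hhe k hk u (hbig u hu)).2 _ ?_)
        rw [hsplit]
        omega
    refine hno (k - k') (by omega) ?_ u hu (h3 ▸ hu')
    have : ((k - k' : ℕ) : ℝ) ≤ k := by exact_mod_cast Nat.sub_le k k'
    linarith
  have hpair : (Finset.range (K + 1) : Set ℕ).PairwiseDisjoint (fun k => T^[k * N] '' Y) := by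
    intro k hk k' hk' hne
    rcases lt_or_gt_of_ne hne with hlt | hgt
    · exact (hdisj k' k hlt (hkle k' (by simpa using hk'))).symm
    · exact hdisj k k' hgt (hkle k (by simpa using hk))
  have hmeas : ∀ k ∈ Finset.range (K + 1), MeasurableSet (T^[k * N] '' Y) := fun k hk =>
    (ARE_vol hSTR hCAN hP hL he hhe Y hY hYs k (hkle k hk)).1
  have hsum : ∑ k ∈ Finset.range (K + 1), volume (T^[k * N] '' Y) = volume (⋃ k ∈ Finset.range (K + 1), T^[k * N] '' Y) :=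
    (measure_biUnion_finset hpair hmeas).symm
  have hsub : (⋃ k ∈ Finset.range (K + 1), T^[k * N] '' Y) ⊆ ball y (7 / 4 * h * ‖a‖) := by
    intro w hw
    simp only [mem_iUnion] at hw
    obtain ⟨k, hk, z, hz, rfl⟩ := hw
    have h1 := (ARE_near hSTR hP hL he hhe k (hkle k hk) z (hbig z hz)).1
    have h2 : ‖z - y‖ < 3 / 2 * h * ‖a‖ := by
      have := mem_ball.1 (hYs hz)
      rwa [dist_eq_norm] at this
    have h3 : ‖T^[k * N] z - y‖ ≤ ‖T^[k * N] z - z - k * a‖ + ‖z - y‖ + k * ‖a‖ := by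
      have h4 : T^[k * N] z - y = (T^[k * N] z - z - k * a) + (z - y) + k * a := by ring
      rw [h4]
      refine (norm_add_le _ _).trans ?_
      refine add_le_add (norm_add_le _ _) ?_
      rw [norm_mul, Complex.norm_natCast]
    have h5 : (k : ℝ) * ‖a‖ ≤ h / 8 * ‖a‖ := mul_le_mul_of_nonneg_right (hkle k hk) ha.le
    rw [mem_ball, dist_eq_norm]
    nlinarith
  have hball : volume (ball y (7 / 4 * h * ‖a‖)) = ENNReal.ofReal (7 / 4 * h * ‖a‖) ^ 2 * NNReal.pi := by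
    rw [Complex.volume_ball]
  have hlow : ((K + 1 : ℕ) : ENNReal) * (ENNReal.ofReal (98 / 100) * volume Y) ≤ volume (ball y (7 / 4 * h * ‖a‖)) := by
    calc ((K + 1 : ℕ) : ENNReal) * (ENNReal.ofReal (98 / 100) * volume Y)
        = ∑ k ∈ Finset.range (K + 1), ENNReal.ofReal (98 / 100) * volume Y := by
          rw [Finset.sum_const, Finset.card_range, nsmul_eq_mul]
      _ ≤ ∑ k ∈ Finset.range (K + 1), volume (T^[k * N] '' Y) :=
          Finset.sum_le_sum fun k hk => (ARE_vol hSTR hCAN hP hL he hhe Y hY hYs k (hkle k hk)).2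
      _ = volume (⋃ k ∈ Finset.range (K + 1), T^[k * N] '' Y) := hsum
      _ ≤ _ := measure_mono hsub
  have hfin : volume Y ≠ ⊤ := ne_top_of_le_ne_top (by rw [Complex.volume_ball]; finiteness) (measure_mono hYs)
  set v : ℝ := (volume Y).toReal with hv
  have hvY : volume Y = ENNReal.ofReal v := (ENNReal.ofReal_toReal hfin).symm
  have hv0 : 0 ≤ v := ENNReal.toReal_nonneg
  rw [hvY]
  refine ENNReal.ofReal_le_ofReal ?_
  have hreal : ((K : ℝ) + 1) * (98 / 100 * v) ≤ (7 / 4 * h * ‖a‖) ^ 2 * Real.pi := by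
    have h1 : ENNReal.ofReal (((K : ℝ) + 1) * (98 / 100 * v)) ≤ ENNReal.ofReal ((7 / 4 * h * ‖a‖) ^ 2 * Real.pi) := by
      have h2 : ENNReal.ofReal (((K : ℝ) + 1) * (98 / 100 * v)) = ((K + 1 : ℕ) : ENNReal) * (ENNReal.ofReal (98 / 100) * volume Y) := by
        rw [ENNReal.ofReal_mul (by positivity), ENNReal.ofReal_mul (by norm_num), hvY]
        congr 1
        rw [← ENNReal.ofReal_natCast]
        push_cast
        rfl
      have h3 : ENNReal.ofReal ((7 / 4 * h * ‖a‖) ^ 2 * Real.pi) = ENNReal.ofReal (7 / 4 * h * ‖a‖) ^ 2 * NNReal.pi := by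
        rw [ENNReal.ofReal_mul (by positivity), ENNReal.ofReal_pow (by positivity)]
        congr 1
        rw [← NNReal.coe_real_pi, ENNReal.ofReal_coe_nnreal]
      rw [h2, h3, ← hball]
      exact hlow
    have h4 : 0 ≤ (7 / 4 * h * ‖a‖) ^ 2 * Real.pi := by positivity
    exact (ENNReal.ofReal_le_ofReal_iff h4).1 h1
  have hpi : Real.pi ≤ 3.15 := Real.pi_lt_d2.le
  have h5 : h / 8 * (98 / 100 * v) ≤ ((K : ℝ) + 1) * (98 / 100 * v) := by
    refine mul_le_mul_of_nonneg_right hK2.le (by positivity)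
  have h6 : (7 / 4 * h * ‖a‖) ^ 2 * Real.pi ≤ (7 / 4 * h * ‖a‖) ^ 2 * 3.15 := mul_le_mul_of_nonneg_left hpi (by positivity)
  have h7 : h * (98 / 800 * v) ≤ h * ((49 / 16 * 3.15) * (h * ‖a‖ ^ 2)) := by
    calc h * (98 / 800 * v) = h / 8 * (98 / 100 * v) := by ring
      _ ≤ (7 / 4 * h * ‖a‖) ^ 2 * 3.15 := (h5.trans hreal).trans h6
      _ = h * ((49 / 16 * 3.15) * (h * ‖a‖ ^ 2)) := by ring
  have h8 : 98 / 800 * v ≤ (49 / 16 * 3.15) * (h * ‖a‖ ^ 2) := le_of_mul_le_mul_left h7 (by linarith)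
  have h9 : 0 ≤ h * ‖a‖ ^ 2 := by positivity
  nlinarith

end FGZ
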